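import Mathlib
import Pool.Agent.W931.LC.Props

set_option autoImplicit false

/-!
# Project LC: the cardinals which remain have order type `ω₁`
-/

namespace Pool.Agent.W616.LC

open Cardinal Pool.Agent.W931.LC

/-- initial parts are countable -/
theorem count_lt_ka (Q : Par) (j : I) : {ν : Cardinal.{0} | ν ∈ Q.S ∧ ν < Q.ka j}.Countable := by
  obtain ⟨i', hi'⟩ := exists_gt_I j
  have hI : (Set.Iio i').Countable := by
    rw [← Cardinal.le_aleph0_iff_set_countable, ← Order.lt_succ_iff, succ_aleph0]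
    simpa using Cardinal.mk_Iio_lt i'
  have hT : (({ℵ₀} : Set Cardinal.{0}) ∪ ⋃ i ∈ Set.Iio i',
      ({Q.lam i, Order.succ (Q.lam i), Order.succ (Order.succ (Q.lam i)), Q.mu i} :
        Set Cardinal.{0})).Countable := by
    refine (Set.countable_singleton _).union (hI.biUnion fun i _ => ?_)
    exact (Set.toFinite _).countable
  refine hT.mono ?_
  rintro ν ⟨⟨h1, h2, h3⟩, h4⟩
  have hne : {i : I | ν < Q.ka i}.Nonempty := ⟨j, h4⟩
  have hwf : WellFounded ((· < ·) : I → I → Prop) := wellFounded_lt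
  obtain ⟨i, hi, hmin⟩ : ∃ i : I, ν < Q.ka i ∧ ∀ k : I, k < i → Q.ka k ≤ ν := by
    refine ⟨hwf.min _ hne, hwf.min_mem _ hne, fun k hk => ?_⟩
    by_contra hcon
    exact hwf.not_lt_min {i : I | ν < Q.ka i} (show ν < Q.ka k from not_le.1 hcon) hk
  have hij : i ≤ j := by
    by_contra hcon
    exact absurd (hmin j (not_le.1 hcon)) (not_le.2 h4)
  have hmu : ν ≤ Q.mu i := by
    rcases h3 i with h | h
    · exact h
    · exact absurd hi (not_lt.2 h)
  have hsup : (⨆ k : Set.Iio i, Q.ka k) ≤ ν := ciSup_le' fun k => hmin k.1 k.2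
  rcases lt_or_ge ν (Q.lam i) with h | h
  · left
    rw [Par.lam, lt_max_iff] at h
    rcases h with h | h
    · rw [← succ_aleph0, Order.lt_succ_iff] at h
      exact le_antisymm h h1
    · exact absurd hsup (not_le.2 h)
  · right
    refine Set.mem_iUnion₂.2 ⟨i, hij.trans_lt hi', ?_⟩
    rw [Par.mu, Order.le_succ_iff_eq_or_le, Order.le_succ_iff_eq_or_le,
      Order.le_succ_iff_eq_or_le] at hmu
    rcases hmu with h5 | h5 | h5 | h5
    · right; right; right
      exact h5
    · right; right; left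
      exact h5
    · right; left
      exact h5
    · left
      exact le_antisymm h5 h

theorem ka_mem (Q : Par) (j : I) : Q.ka j ∈ Q.S := by
  refine ⟨(Q.unc j).le, Q.ka_lt_top j, fun k => ?_⟩
  rcases lt_or_ge j k with h | h
  · left
    exact (Q.ka_lt_mu h).le
  · right
    exact Q.mono.monotone h

theorem tALEPH : S_ALEPH := by
  intro Q
  have hcard : (ℵ₁ : Cardinal.{1}) ≤ #Q.S := by
    have hinj : Function.Injective (fun j : I => (⟨Q.ka j, ka_mem Q j⟩ : Q.S)) := by
      intro a b h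
      exact Q.mono.injective (congrArg Subtype.val h)
    have h1 := Cardinal.lift_mk_le_lift_mk_of_injective hinj
    rw [mk_ord_toType, Cardinal.lift_aleph] at h1
    simpa using h1
  have hle : (ℵ₁ : Cardinal.{1}).ord ≤ Ordinal.type ((· < ·) : Q.S → Q.S → Prop) := by
    rw [Cardinal.ord_le, Ordinal.card_type]
    exact hcard
  have hge : Ordinal.type ((· < ·) : Q.S → Q.S → Prop) ≤ (ℵ₁ : Cardinal.{1}).ord := by
    by_contra hcon
    rw [not_le] at hcon
    obtain ⟨x, hx⟩ := Ordinal.typein_surj (· < ·) hcon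
    have h1 : #{y : Q.S // y < x} = ℵ₁ := by
      have h2 := Ordinal.card_typein (r := ((· < ·) : Q.S → Q.S → Prop)) x
      rw [hx, Cardinal.card_ord] at h2
      exact h2.symm
    obtain ⟨j, hj⟩ := Q.exists_lt_ka x.2.2.1
    have h3 : Countable {y : Q.S // y < x} := by
      have h4 := (count_lt_ka Q j).to_subtype
      refine Function.Injective.countable (f := fun y : {y : Q.S // y < x} =>
        (⟨y.1.1, y.1.2, lt_trans (Subtype.coe_lt_coe.2 y.2) hj⟩ :
          {ν : Cardinal.{0} | ν ∈ Q.S ∧ ν < Q.ka j})) ?_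
      intro a b h
      have h' : a.1.1 = b.1.1 := by
        simpa using h
      exact Subtype.ext (Subtype.ext h')
    have h5 : #{y : Q.S // y < x} ≤ ℵ₀ := Cardinal.mk_le_aleph0
    rw [h1] at h5
    exact absurd h5 (not_le.2 aleph0_lt_aleph_one)
  have heq : Ordinal.type ((· < ·) : Q.S → Q.S → Prop) = (ℵ₁ : Cardinal.{1}).ord :=
    le_antisymm hge hle
  have hI : Ordinal.lift.{1} (Ordinal.type ((· < ·) : I → I → Prop)) = (ℵ₁ : Cardinal.{1}).ord := by
    rw [Ordinal.type_toType, Cardinal.lift_ord, Cardinal.lift_aleph]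
    simp
  have h6 : Ordinal.lift.{0} (Ordinal.type ((· < ·) : Q.S → Q.S → Prop)) =
      Ordinal.lift.{1} (Ordinal.type ((· < ·) : I → I → Prop)) := by
    rw [heq, hI, Ordinal.lift_uzero]
  obtain ⟨e⟩ := Ordinal.lift_type_eq.{1, 0, 0}.1 h6
  exact ⟨OrderIso.ofRelIsoLT e⟩

end Pool.Agent.W616.LC
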